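import Pool.Agent.W2helper59.NW.Geo

/-!
# S09083, pieces G2 and G3V: the covering of the fundamental triangle; the vertex lists
-/

set_option autoImplicit false

namespace Pool.Agent.W2helper66.NW

open Pool.Agent.W2helper59.NW
open scoped goldenRatio

theorem g2 : G2 := by
  have h2 : φ ^ 2 = φ + 1 := Real.goldenRatio_sq
  have hp : 0 < φ := Real.goldenRatio_pos
  refine ⟨fun s t hs ht h => ?_, fun s t hs ht h => ?_⟩
  · rw [h2] at h
    rcases le_or_gt ((φ + 1) * t * (5 - 3 * φ)) s with h1 | h1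
    · left
      have e1 : (φ + 1) * t * (5 - 3 * φ) = (2 - φ) * t := by
        linear_combination (-3 * t) * h2
      refine ⟨1 - ((φ + 1) * (s - (φ + 1) * t * (5 - 3 * φ))) - (φ + 1) * t,
        (φ + 1) * (s - (φ + 1) * t * (5 - 3 * φ)), (φ + 1) * t, ?_, ?_, ?_, by ring, ?_, ?_⟩
      · have : 1 - ((φ + 1) * (s - (φ + 1) * t * (5 - 3 * φ))) - (φ + 1) * t =
            1 - ((φ + 1) * s + φ * t) := by
          rw [e1]
          linear_combination (-t) * h2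
        rw [this]
        linarith
      · exact mul_nonneg (by linarith) (by linarith)
      · positivity
      · linear_combination (s - (φ + 1) * t * (5 - 3 * φ)) * h2
      · linear_combination t * h2
    · right
      have e1 : (φ + 1) * t * (5 - 3 * φ) = (2 - φ) * t := by
        linear_combination (-3 * t) * h2
      rw [e1] at h1
      rcases le_or_gt t (2 - φ) with h3 | h3
      · right
        refine ⟨1 - (φ + 1) * t, (3 * φ + 2) * s, (φ + 1) * t - (3 * φ + 2) * s, ?_, ?_, ?_, by ring, ?_, ?_⟩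
        · have := mul_le_mul_of_nonneg_left h3 (show 0 ≤ φ + 1 by linarith)
          have e2 : (φ + 1) * (2 - φ) = 1 := by linear_combination -h2
          linarith
        · positivity
        · have := mul_lt_mul_of_pos_left h1 (show 0 < 3 * φ + 2 by linarith)
          have e2 : (3 * φ + 2) * ((2 - φ) * t) = (φ + 1) * t := by linear_combination (-3 * t) * h2
          linarith
        · linear_combination (9 * s) * h2
        · linear_combination t * h2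
      · left
        refine ⟨(3 * φ + 2) * s, (2 * φ + 1) * (t - (2 - φ)),
          1 - (3 * φ + 2) * s - (2 * φ + 1) * (t - (2 - φ)), ?_, ?_, ?_, by ring, ?_, ?_⟩
        · positivity
        · exact mul_nonneg (by linarith) (by linarith)
        · have h4 := mul_le_mul_of_nonneg_left h (show 0 ≤ φ + 1 by linarith)
          have e2 : (φ + 1) * ((φ + 1) * s + φ * t) = (3 * φ + 2) * s + (2 * φ + 1) * t := by
            linear_combination (s + t) * h2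
          have e3 : (2 * φ + 1) * (t - (2 - φ)) = (2 * φ + 1) * t - φ := by
            linear_combination 2 * h2
          rw [e2] at h4
          rw [e3]
          linarith
        · linear_combination (9 * s) * h2
        · linear_combination (-(4 * (t - (2 - φ)))) * h2
  · rw [h2] at h
    rcases le_or_gt (φ * t) s with h1 | h1
    · left
      refine ⟨1 - (φ + 1) * (s - φ * t) - (1 + 3 * φ) * t, (φ + 1) * (s - φ * t), (1 + 3 * φ) * t,
        ?_, ?_, ?_, by ring, ?_, ?_⟩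
      · have : 1 - (φ + 1) * (s - φ * t) - (1 + 3 * φ) * t = 1 - ((φ + 1) * s + φ * t) := by
          linear_combination t * h2
        rw [this]
        linarith
      · exact mul_nonneg (by linarith) (by linarith)
      · positivity
      · linear_combination (5 * s - 5 * φ * t + 3 * t) * h2
      · linear_combination (-9 * t) * h2
    · right
      refine ⟨1 - (2 + φ) * s - (φ * t - s), (2 + φ) * s, φ * t - s, ?_, ?_, ?_, by ring, ?_, ?_⟩
      · linarith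
      · positivity
      · linarith
      · linear_combination s * h2
      · linear_combination (-3 * s - 5 * t) * h2

theorem r_eq (a b c d e f : ℤ) : (⟨⟨a, b⟩, ⟨c, d⟩, ⟨e, f⟩⟩ : Z3).r =
    ![(a : ℝ) + b * φ, (c : ℝ) + d * φ, (e : ℝ) + f * φ] := rfl

lemma inv_phi (s : ℝ) : s / φ = s * (φ - 1) := by
  have hp : φ ≠ 0 := Real.goldenRatio_ne_zero
  have h2 : φ ^ 2 = φ + 1 := Real.goldenRatio_sq
  rw [div_eq_iff hp]
  linear_combination (-s) * h2

lemma v3 {a b c a' b' c' : ℝ} (h1 : a = a') (h2 : b = b') (h3 : c = c') :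
    (![a, b, c] : Fin 3 → ℝ) = ![a', b', c'] := by
  rw [h1, h2, h3]

theorem memVI : ∀ v ∈ VIl, v.r ∈ VI := by
  intro v hv
  simp only [VIl, List.mem_cons, List.not_mem_nil, or_false] at hv
  rcases hv with rfl | rfl | rfl | rfl | rfl | rfl | rfl | rfl | rfl | rfl | rfl | rfl
  · exact ⟨1, 1, by norm_num, by norm_num, Or.inl (by
      rw [r_eq]; apply v3 <;> (push_cast; ring))⟩
  · exact ⟨1, -1, by norm_num, by norm_num, Or.inl (by
      rw [r_eq]; apply v3 <;> (push_cast; ring))⟩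
  · exact ⟨-1, 1, by norm_num, by norm_num, Or.inl (by
      rw [r_eq]; apply v3 <;> (push_cast; ring))⟩
  · exact ⟨-1, -1, by norm_num, by norm_num, Or.inl (by
      rw [r_eq]; apply v3 <;> (push_cast; ring))⟩
  · exact ⟨1, 1, by norm_num, by norm_num, Or.inr (Or.inl (by
      rw [r_eq]; apply v3 <;> (push_cast; ring)))⟩
  · exact ⟨1, -1, by norm_num, by norm_num, Or.inr (Or.inl (by
      rw [r_eq]; apply v3 <;> (push_cast; ring)))⟩
  · exact ⟨-1, 1, by norm_num, by norm_num, Or.inr (Or.inl (by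
      rw [r_eq]; apply v3 <;> (push_cast; ring)))⟩
  · exact ⟨-1, -1, by norm_num, by norm_num, Or.inr (Or.inl (by
      rw [r_eq]; apply v3 <;> (push_cast; ring)))⟩
  · exact ⟨1, 1, by norm_num, by norm_num, Or.inr (Or.inr (by
      rw [r_eq]; apply v3 <;> (push_cast; ring)))⟩
  · exact ⟨1, -1, by norm_num, by norm_num, Or.inr (Or.inr (by
      rw [r_eq]; apply v3 <;> (push_cast; ring)))⟩
  · exact ⟨-1, 1, by norm_num, by norm_num, Or.inr (Or.inr (by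
      rw [r_eq]; apply v3 <;> (push_cast; ring)))⟩
  · exact ⟨-1, -1, by norm_num, by norm_num, Or.inr (Or.inr (by
      rw [r_eq]; apply v3 <;> (push_cast; ring)))⟩

theorem exVI : ∀ v ∈ VI, ∃ z ∈ VIl, v = z.r := by
  rintro v ⟨s, t, hs, ht, h⟩
  rcases hs with rfl | rfl <;> rcases ht with rfl | rfl <;> rcases h with rfl | rfl | rfl
  · exact ⟨⟨⟨0, 0⟩, ⟨1, 0⟩, ⟨0, 1⟩⟩, by simp [VIl], by
      rw [r_eq]; apply v3 <;> (push_cast; ring)⟩
  · exact ⟨⟨⟨1, 0⟩, ⟨0, 1⟩, ⟨0, 0⟩⟩, by simp [VIl], by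
      rw [r_eq]; apply v3 <;> (push_cast; ring)⟩
  · exact ⟨⟨⟨0, 1⟩, ⟨0, 0⟩, ⟨1, 0⟩⟩, by simp [VIl], by
      rw [r_eq]; apply v3 <;> (push_cast; ring)⟩
  · exact ⟨⟨⟨0, 0⟩, ⟨1, 0⟩, ⟨0, -1⟩⟩, by simp [VIl], by
      rw [r_eq]; apply v3 <;> (push_cast; ring)⟩
  · exact ⟨⟨⟨1, 0⟩, ⟨0, -1⟩, ⟨0, 0⟩⟩, by simp [VIl], by
      rw [r_eq]; apply v3 <;> (push_cast; ring)⟩
  · exact ⟨⟨⟨0, -1⟩, ⟨0, 0⟩, ⟨1, 0⟩⟩, by simp [VIl], by
      rw [r_eq]; apply v3 <;> (push_cast; ring)⟩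
  · exact ⟨⟨⟨0, 0⟩, ⟨-1, 0⟩, ⟨0, 1⟩⟩, by simp [VIl], by
      rw [r_eq]; apply v3 <;> (push_cast; ring)⟩
  · exact ⟨⟨⟨-1, 0⟩, ⟨0, 1⟩, ⟨0, 0⟩⟩, by simp [VIl], by
      rw [r_eq]; apply v3 <;> (push_cast; ring)⟩
  · exact ⟨⟨⟨0, 1⟩, ⟨0, 0⟩, ⟨-1, 0⟩⟩, by simp [VIl], by
      rw [r_eq]; apply v3 <;> (push_cast; ring)⟩
  · exact ⟨⟨⟨0, 0⟩, ⟨-1, 0⟩, ⟨0, -1⟩⟩, by simp [VIl], by
      rw [r_eq]; apply v3 <;> (push_cast; ring)⟩
  · exact ⟨⟨⟨-1, 0⟩, ⟨0, -1⟩, ⟨0, 0⟩⟩, by simp [VIl], by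
      rw [r_eq]; apply v3 <;> (push_cast; ring)⟩
  · exact ⟨⟨⟨0, -1⟩, ⟨0, 0⟩, ⟨-1, 0⟩⟩, by simp [VIl], by
      rw [r_eq]; apply v3 <;> (push_cast; ring)⟩

lemma sw (a b c : ℝ) : (![(![a, b, c] : Fin 3 → ℝ) 1, (![a, b, c] : Fin 3 → ℝ) 0, (![a, b, c] : Fin 3 → ℝ) 2] : Fin 3 → ℝ) = ![b, a, c] := rfl

theorem memVE : ∀ v ∈ VEl, v.r ∈ VE := by
  intro v hv
  simp only [VEl, List.mem_cons, List.not_mem_nil, or_false] at hv
  rcases hv with rfl | rfl | rfl | rfl | rfl | rfl | rfl | rfl | rfl | rfl | rfl | rfl | rfl | rfl | rfl | rfl | rfl | rfl | rfl | rfl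
  · show ![_, _, _] ∈ VD
    rw [r_eq, sw]
    exact ⟨1, 1, 1, by norm_num, by norm_num, by norm_num, Or.inl (by
      apply v3 <;> (push_cast; ring))⟩
  · show ![_, _, _] ∈ VD
    rw [r_eq, sw]
    exact ⟨1, 1, -1, by norm_num, by norm_num, by norm_num, Or.inl (by
      apply v3 <;> (push_cast; ring))⟩
  · show ![_, _, _] ∈ VD
    rw [r_eq, sw]
    exact ⟨-1, 1, 1, by norm_num, by norm_num, by norm_num, Or.inl (by
      apply v3 <;> (push_cast; ring))⟩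
  · show ![_, _, _] ∈ VD
    rw [r_eq, sw]
    exact ⟨-1, 1, -1, by norm_num, by norm_num, by norm_num, Or.inl (by
      apply v3 <;> (push_cast; ring))⟩
  · show ![_, _, _] ∈ VD
    rw [r_eq, sw]
    exact ⟨1, -1, 1, by norm_num, by norm_num, by norm_num, Or.inl (by
      apply v3 <;> (push_cast; ring))⟩
  · show ![_, _, _] ∈ VD
    rw [r_eq, sw]
    exact ⟨1, -1, -1, by norm_num, by norm_num, by norm_num, Or.inl (by
      apply v3 <;> (push_cast; ring))⟩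
  · show ![_, _, _] ∈ VD
    rw [r_eq, sw]
    exact ⟨-1, -1, 1, by norm_num, by norm_num, by norm_num, Or.inl (by
      apply v3 <;> (push_cast; ring))⟩
  · show ![_, _, _] ∈ VD
    rw [r_eq, sw]
    exact ⟨-1, -1, -1, by norm_num, by norm_num, by norm_num, Or.inl (by
      apply v3 <;> (push_cast; ring))⟩
  · show ![_, _, _] ∈ VD
    rw [r_eq, sw]
    exact ⟨1, 1, 1, by norm_num, by norm_num, by norm_num, Or.inr (Or.inl (by
      rw [inv_phi]; apply v3 <;> (push_cast; ring)))⟩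
  · show ![_, _, _] ∈ VD
    rw [r_eq, sw]
    exact ⟨1, 1, -1, by norm_num, by norm_num, by norm_num, Or.inr (Or.inl (by
      rw [inv_phi]; apply v3 <;> (push_cast; ring)))⟩
  · show ![_, _, _] ∈ VD
    rw [r_eq, sw]
    exact ⟨1, -1, 1, by norm_num, by norm_num, by norm_num, Or.inr (Or.inl (by
      rw [inv_phi]; apply v3 <;> (push_cast; ring)))⟩
  · show ![_, _, _] ∈ VD
    rw [r_eq, sw]
    exact ⟨1, -1, -1, by norm_num, by norm_num, by norm_num, Or.inr (Or.inl (by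
      rw [inv_phi]; apply v3 <;> (push_cast; ring)))⟩
  · show ![_, _, _] ∈ VD
    rw [r_eq, sw]
    exact ⟨1, 1, 1, by norm_num, by norm_num, by norm_num, Or.inr (Or.inr (Or.inl (by
      rw [inv_phi]; apply v3 <;> (push_cast; ring))))⟩
  · show ![_, _, _] ∈ VD
    rw [r_eq, sw]
    exact ⟨1, 1, -1, by norm_num, by norm_num, by norm_num, Or.inr (Or.inr (Or.inl (by
      rw [inv_phi]; apply v3 <;> (push_cast; ring))))⟩
  · show ![_, _, _] ∈ VD
    rw [r_eq, sw]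
    exact ⟨1, -1, 1, by norm_num, by norm_num, by norm_num, Or.inr (Or.inr (Or.inl (by
      rw [inv_phi]; apply v3 <;> (push_cast; ring))))⟩
  · show ![_, _, _] ∈ VD
    rw [r_eq, sw]
    exact ⟨1, -1, -1, by norm_num, by norm_num, by norm_num, Or.inr (Or.inr (Or.inl (by
      rw [inv_phi]; apply v3 <;> (push_cast; ring))))⟩
  · show ![_, _, _] ∈ VD
    rw [r_eq, sw]
    exact ⟨1, 1, 1, by norm_num, by norm_num, by norm_num, Or.inr (Or.inr (Or.inr (by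
      rw [inv_phi]; apply v3 <;> (push_cast; ring))))⟩
  · show ![_, _, _] ∈ VD
    rw [r_eq, sw]
    exact ⟨1, 1, -1, by norm_num, by norm_num, by norm_num, Or.inr (Or.inr (Or.inr (by
      rw [inv_phi]; apply v3 <;> (push_cast; ring))))⟩
  · show ![_, _, _] ∈ VD
    rw [r_eq, sw]
    exact ⟨1, -1, 1, by norm_num, by norm_num, by norm_num, Or.inr (Or.inr (Or.inr (by
      rw [inv_phi]; apply v3 <;> (push_cast; ring))))⟩
  · show ![_, _, _] ∈ VD
    rw [r_eq, sw]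
    exact ⟨1, -1, -1, by norm_num, by norm_num, by norm_num, Or.inr (Or.inr (Or.inr (by
      rw [inv_phi]; apply v3 <;> (push_cast; ring))))⟩

lemma of_sw {v : Fin 3 → ℝ} {a b c : ℝ} (h : (![v 1, v 0, v 2] : Fin 3 → ℝ) = ![a, b, c]) : v = ![b, a, c] := by
  have h0 : v 1 = a := congrFun h 0
  have h1 : v 0 = b := congrFun h 1
  have h2 : v 2 = c := congrFun h 2
  funext i
  fin_cases i
  · exact h1
  · exact h0
  · exact h2

theorem exVE : ∀ v ∈ VE, ∃ z ∈ VEl, v = z.r := by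
  rintro v ⟨r, s, t, hr, hs, ht, h⟩
  rcases h with h | h | h | h
  · rw [of_sw h]
    rcases hr with rfl | rfl <;> rcases hs with rfl | rfl <;> rcases ht with rfl | rfl
    · exact ⟨⟨⟨1, 0⟩, ⟨1, 0⟩, ⟨1, 0⟩⟩, by simp [VEl], by
        rw [r_eq]; apply v3 <;> (push_cast; ring)⟩
    · exact ⟨⟨⟨1, 0⟩, ⟨1, 0⟩, ⟨-1, 0⟩⟩, by simp [VEl], by
        rw [r_eq]; apply v3 <;> (push_cast; ring)⟩
    · exact ⟨⟨⟨-1, 0⟩, ⟨1, 0⟩, ⟨1, 0⟩⟩, by simp [VEl], by
        rw [r_eq]; apply v3 <;> (push_cast; ring)⟩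
    · exact ⟨⟨⟨-1, 0⟩, ⟨1, 0⟩, ⟨-1, 0⟩⟩, by simp [VEl], by
        rw [r_eq]; apply v3 <;> (push_cast; ring)⟩
    · exact ⟨⟨⟨1, 0⟩, ⟨-1, 0⟩, ⟨1, 0⟩⟩, by simp [VEl], by
        rw [r_eq]; apply v3 <;> (push_cast; ring)⟩
    · exact ⟨⟨⟨1, 0⟩, ⟨-1, 0⟩, ⟨-1, 0⟩⟩, by simp [VEl], by
        rw [r_eq]; apply v3 <;> (push_cast; ring)⟩
    · exact ⟨⟨⟨-1, 0⟩, ⟨-1, 0⟩, ⟨1, 0⟩⟩, by simp [VEl], by
        rw [r_eq]; apply v3 <;> (push_cast; ring)⟩
    · exact ⟨⟨⟨-1, 0⟩, ⟨-1, 0⟩, ⟨-1, 0⟩⟩, by simp [VEl], by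
        rw [r_eq]; apply v3 <;> (push_cast; ring)⟩
  · rw [of_sw h, inv_phi]
    rcases hs with rfl | rfl <;> rcases ht with rfl | rfl
    · exact ⟨⟨⟨-1, 1⟩, ⟨0, 0⟩, ⟨0, 1⟩⟩, by simp [VEl], by
        rw [r_eq]; apply v3 <;> (push_cast; ring)⟩
    · exact ⟨⟨⟨-1, 1⟩, ⟨0, 0⟩, ⟨0, -1⟩⟩, by simp [VEl], by
        rw [r_eq]; apply v3 <;> (push_cast; ring)⟩
    · exact ⟨⟨⟨1, -1⟩, ⟨0, 0⟩, ⟨0, 1⟩⟩, by simp [VEl], by
        rw [r_eq]; apply v3 <;> (push_cast; ring)⟩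
    · exact ⟨⟨⟨1, -1⟩, ⟨0, 0⟩, ⟨0, -1⟩⟩, by simp [VEl], by
        rw [r_eq]; apply v3 <;> (push_cast; ring)⟩
  · rw [of_sw h, inv_phi]
    rcases hs with rfl | rfl <;> rcases ht with rfl | rfl
    · exact ⟨⟨⟨0, 1⟩, ⟨-1, 1⟩, ⟨0, 0⟩⟩, by simp [VEl], by
        rw [r_eq]; apply v3 <;> (push_cast; ring)⟩
    · exact ⟨⟨⟨0, -1⟩, ⟨-1, 1⟩, ⟨0, 0⟩⟩, by simp [VEl], by
        rw [r_eq]; apply v3 <;> (push_cast; ring)⟩
    · exact ⟨⟨⟨0, 1⟩, ⟨1, -1⟩, ⟨0, 0⟩⟩, by simp [VEl], by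
        rw [r_eq]; apply v3 <;> (push_cast; ring)⟩
    · exact ⟨⟨⟨0, -1⟩, ⟨1, -1⟩, ⟨0, 0⟩⟩, by simp [VEl], by
        rw [r_eq]; apply v3 <;> (push_cast; ring)⟩
  · rw [of_sw h, inv_phi]
    rcases hs with rfl | rfl <;> rcases ht with rfl | rfl
    · exact ⟨⟨⟨0, 0⟩, ⟨0, 1⟩, ⟨-1, 1⟩⟩, by simp [VEl], by
        rw [r_eq]; apply v3 <;> (push_cast; ring)⟩
    · exact ⟨⟨⟨0, 0⟩, ⟨0, -1⟩, ⟨-1, 1⟩⟩, by simp [VEl], by
        rw [r_eq]; apply v3 <;> (push_cast; ring)⟩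
    · exact ⟨⟨⟨0, 0⟩, ⟨0, 1⟩, ⟨1, -1⟩⟩, by simp [VEl], by
        rw [r_eq]; apply v3 <;> (push_cast; ring)⟩
    · exact ⟨⟨⟨0, 0⟩, ⟨0, -1⟩, ⟨1, -1⟩⟩, by simp [VEl], by
        rw [r_eq]; apply v3 <;> (push_cast; ring)⟩

lemma neg3 (a b c : ℝ) : -(![a, b, c] : Fin 3 → ℝ) = ![-a, -b, -c] := by
  funext i
  fin_cases i <;> rfl

lemma neg_pm {s : ℝ} (h : s = 1 ∨ s = -1) : -s = 1 ∨ -s = -1 := by
  rcases h with rfl | rfl
  · right; rfl
  · left; norm_num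

theorem negVI : ∀ v ∈ VI, -v ∈ VI := by
  rintro v ⟨s, t, hs, ht, h⟩
  refine ⟨-s, -t, neg_pm hs, neg_pm ht, ?_⟩
  rcases h with rfl | rfl | rfl
  · left; rw [neg3]; apply v3 <;> ring
  · right; left; rw [neg3]; apply v3 <;> ring
  · right; right; rw [neg3]; apply v3 <;> ring

theorem negVD : ∀ v ∈ VD, -v ∈ VD := by
  rintro v ⟨r, s, t, hr, hs, ht, h⟩
  refine ⟨-r, -s, -t, neg_pm hr, neg_pm hs, neg_pm ht, ?_⟩
  rcases h with rfl | rfl | rfl | rfl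
  · left; rw [neg3]
  · right; left; rw [neg3]; apply v3 <;> ring
  · right; right; left; rw [neg3]; apply v3 <;> ring
  · right; right; right; rw [neg3]; apply v3 <;> ring

theorem negVE : ∀ v ∈ VE, -v ∈ VE := by
  intro v hv
  have h := negVD _ hv
  rw [neg3] at h
  exact h

theorem g3v : G3V := ⟨memVI, exVI, memVE, exVE, negVI, negVE, negVD⟩

end Pool.Agent.W2helper66.NW
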